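import Pool.Agent.P8H50.NK.Stm3

/-!
Project NK (helper50), package CAL: morphisms from curves to varieties with a finite morphism to
projective space which is ramified over hyperplanes.
-/

set_option autoImplicit false

namespace Pool.Agent.P8H21.NK

open FF MvPolynomial Pool.Agent.W602.GT Pool.Agent.W603.LV Pool.Agent.W603.PV Pool.Agent.P8H50.NK
open Pool.Agent.Y216 (OnVar)

noncomputable section

/-- the rank condition from the condition on common zeros -/
theorem rk_zero {d q : ℕ} {M : Fin q → Fin d → ℂ} {A : Finset (Fin q)}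
    (h : ∀ x : Fin d → ℂ, (∀ j ∈ A, ∑ l, M j l * x l = 0) → x = 0) :
    Pool.Agent.N750.rk ℂ M A = d := by
  classical
  unfold Pool.Agent.N750.rk
  have h1 : Submodule.span ℂ (M '' (A : Set (Fin q))) = ⊤ := by
    rw [← Submodule.dualAnnihilator_eq_bot_iff]
    rw [eq_bot_iff]
    intro φ hφ
    rw [Submodule.mem_bot]
    rw [Submodule.mem_dualAnnihilator] at hφ
    have h2 := h (fun l => φ (Pi.single l 1)) (fun j hj => by
      have h3 := hφ (M j) (Submodule.subset_span ⟨j, hj, rfl⟩)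
      have h4 : M j = ∑ l, M j l • (Pi.single l 1 : Fin d → ℂ) := by
        funext i
        simp [Pi.single_apply]
      rw [h4, map_sum] at h3
      simpa only [map_smul, smul_eq_mul] using h3)
    apply LinearMap.pi_ext'
    intro l
    ext
    simpa using congrFun h2 l
  rw [h1, finrank_top, Module.finrank_fin_fun]

theorem val_fin {N : ℕ} (c : Fin (N + 1) → ℂ) (G : MvPolynomial (Fin (N + 1)) ℂ) :
    val c G = eval c G := by
  unfold Pool.Agent.W602.GT.val
  rw [MvPolynomial.aeval_def, MvPolynomial.eval₂_eq', MvPolynomial.eval_eq']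
  rfl

section pl

variable {M : ℕ} {K : Type} [Field K] [Algebra ℂ K] {x : Fin (M + 1) → K} {n r : ℕ}
  {D : CDat x n r} {L : Type} [Field L] [Algebra ℂ L] [IsFF ℂ L] {v : Fin (M + 1) → L}

/-- the image of a point -/
def im (D : CDat x n r) (v : Fin (M + 1) → L) : Fin (n + 1) → L := fun l => val v (D.A l)

omit [IsFF ℂ L] in
theorem ge_im (hD : D.Good) (P : Place ℂ L) {j0 : Fin (M + 1)} (hj0 : v j0 ≠ 0)
    (h0 : P.ord (v j0) = pord P v) (l : Fin (n + 1)) : Ge P (D.d * pord P v) (im D v l) := by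
  have hv : v = fun j => v j0 * (v j / v j0) := by
    funext j
    field_simp
  have h1 : im D v l = v j0 ^ D.d * val (fun j => v j / v j0) (D.A l) := by
    unfold im
    conv_lhs => rw [hv]
    exact val_smul (hD.homA l) _ _
  have h2 : Ge P 0 (val (fun j => v j / v j0) (D.A l)) := by
    refine ge_mvaeval P (fun j => ?_) _
    by_cases hj : v j = 0
    · left; rw [hj, zero_div]
    · right
      rw [P.ord_div hj hj0, h0]
      have := pord_le P hj
      omega
  rw [h1]
  have h3 : Ge P (D.d * pord P v) (v j0 ^ D.d) := by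
    right
    rw [P.ord_pow, h0]
  simpa using h3.mul h2

/-- at every place some coordinate of the image has the smallest possible order -/
theorem exists_im (hD : D.Good) (hv : OnVar ℂ x v) (P : Place ℂ L) {j0 : Fin (M + 1)}
    (hj0 : v j0 ≠ 0) (h0 : P.ord (v j0) = pord P v) :
    ∃ l, im D v l ≠ 0 ∧ P.ord (im D v l) = D.d * pord P v := by
  have hvf : v = fun j => v j0 * (v j / v j0) := by
    funext j
    field_simp
  have hreg : ∀ j, Ge P 0 (v j / v j0) := by
    intro j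
    by_cases hj : v j = 0
    · left; rw [hj, zero_div]
    · right
      rw [P.ord_div hj hj0, h0]
      have := pord_le P hj
      omega
  choose c hc using fun j => exists_const P (hreg j)
  have hred := red_mvaeval P hreg hc
  have hcj0 : c j0 = 1 := by
    have h1 := hc j0
    rw [div_self hj0] at h1
    have h2 : Ge P 1 (algebraMap ℂ L (1 - c j0)) := by
      rw [map_sub, map_one]
      exact h1
    have h3 := const_zero P h2
    exact (sub_eq_zero.1 h3).symm
  have hcV : c ∈ VarPts ℂ x := by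
    refine ⟨fun h => ?_, fun G hG hx => ?_⟩
    · rw [h] at hcj0
      exact zero_ne_one hcj0
    · obtain ⟨d, hd⟩ := hG
      have h1 := hv.2 G ⟨d, hd⟩ hx
      rw [hvf, val_smul hd] at h1
      have h2 := (mul_eq_zero.1 h1).resolve_left (pow_ne_zero _ hj0)
      have h3 := hred G
      have h4 : aeval (fun j => v j / v j0) G = 0 := h2
      rw [h4, zero_sub] at h3
      have h5 := h3.neg
      rw [neg_neg] at h5
      rw [val_fin]
      exact const_zero P h5
  obtain ⟨l, hl⟩ := hD.free c hcV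
  rw [val_fin] at hl
  have h1 := hred (D.A l)
  have h2 : algebraMap ℂ L (eval c (D.A l)) ≠ 0 := (map_ne_zero _).2 hl
  have h3 : P.ord (algebraMap ℂ L (eval c (D.A l))) = 0 := P.ord_const hl
  have h4 : aeval (fun j => v j / v j0) (D.A l) ≠ 0 := by
    intro h5
    rw [h5, zero_sub] at h1
    have h6 := h1.neg
    rw [neg_neg] at h6
    exact hl (const_zero P h6)
  have h5 : P.ord (aeval (fun j => v j / v j0) (D.A l)) = 0 := by
    have h6 : Ge P 0 (aeval (fun j => v j / v j0) (D.A l)) := ge_mvaeval P hreg _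
    have h7 := h6.resolve_left h4
    by_contra hne
    have h8 : Ge P 1 (aeval (fun j => v j / v j0) (D.A l)) := Or.inr (by omega)
    have h9 : Ge P 1 (algebraMap ℂ L (eval c (D.A l))) := by
      have := h8.sub h1
      rwa [sub_sub_cancel] at this
    exact hl (const_zero P h9)
  have h6 : im D v l = v j0 ^ D.d * val (fun j => v j / v j0) (D.A l) := by
    unfold im
    conv_lhs => rw [hvf]
    exact val_smul (hD.homA l) _ _
  have h7 : val (fun j => v j / v j0) (D.A l) = aeval (fun j => v j / v j0) (D.A l) := rfl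
  refine ⟨l, ?_, ?_⟩
  · rw [h6, h7]
    exact mul_ne_zero (pow_ne_zero _ hj0) h4
  · rw [h6, h7, P.ord_mul (pow_ne_zero _ hj0) h4, P.ord_pow, h5, h0, add_zero]

theorem pord_im (hD : D.Good) (hv : OnVar ℂ x v) (P : Place ℂ L) :
    pord P (im D v) = D.d * pord P v := by
  obtain ⟨j0, hj0, h0⟩ := exists_pord P hv.1
  obtain ⟨l, hl, h1⟩ := exists_im hD hv P hj0 h0
  apply le_antisymm
  · rw [← h1]
    exact pord_le P hl
  · obtain ⟨l', hl', h2⟩ := exists_pord P ⟨l, hl⟩
    rw [← h2]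
    exact (ge_im hD P hj0 h0 l').resolve_left hl'

theorem im_ne (hD : D.Good) (hv : OnVar ℂ x v) : im D v ≠ 0 := by
  obtain ⟨P, -⟩ := exists_place_not_mem (k := ℂ) (K := L) ∅
  obtain ⟨j0, hj0, h0⟩ := exists_pord P hv.1
  obtain ⟨l, hl, -⟩ := exists_im hD hv P hj0 h0
  intro h
  exact hl (congrFun h l)

theorem pht_im (hD : D.Good) (hv : OnVar ℂ x v) : pht ℂ (im D v) = D.d * pht ℂ v := by
  unfold pht
  have h1 : (fun P : Place ℂ L => pord P (im D v)) = fun P => (D.d : ℤ) * pord P v :=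
    funext fun P => pord_im hD hv P
  rw [h1, ← mul_finsum]
  ring

theorem pht_nonneg' (hv : ∃ j, v j ≠ 0) : 0 ≤ pht ℂ v := by
  classical
  obtain ⟨j0, hj0⟩ := hv
  unfold pht
  have h1 : ∑ᶠ P : Place ℂ L, P.ord (v j0) = 0 := sum_ord (v j0)
  have h2 : ∑ᶠ P : Place ℂ L, pord P v ≤ ∑ᶠ P : Place ℂ L, P.ord (v j0) :=
    finsum_le_finsum' (pord_finite ⟨j0, hj0⟩) (finite_support (v j0)) fun P => pord_le P hj0
  omega

omit [IsFF ℂ L] in
theorem val_pull (i : Fin r) (j : Fin (D.q i)) : val v (D.pull i j) = lk (D.ℓ i j) (im D v) := by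
  unfold CDat.pull lk im Pool.Agent.W602.GT.val
  rw [map_sum]
  refine Finset.sum_congr rfl fun l _ => ?_
  rw [map_mul, MvPolynomial.aeval_C]

omit [IsFF ℂ L] in
theorem val_eq (hD : D.Good) (hv : OnVar ℂ x v) (i : Fin r) :
    val v (D.B i) ^ D.m i = ∏ j, lk (D.ℓ i j) (im D v) ^ D.e i j := by
  have hp : ∀ j, (D.pull i j).IsHomogeneous D.d := by
    intro j
    unfold CDat.pull
    refine IsHomogeneous.sum _ _ _ fun l _ => ?_
    simpa using (isHomogeneous_C (Fin (M + 1)) (D.ℓ i j l)).mul (hD.homA l)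
  have h1 : (D.B i ^ D.m i).IsHomogeneous (D.d * ∑ j, D.e i j) := by
    have h2 := (hD.homB i).pow (D.m i)
    rwa [mul_assoc, Nat.div_mul_cancel (hD.dvd i)] at h2
  have h2 : (∏ j, D.pull i j ^ D.e i j).IsHomogeneous (D.d * ∑ j, D.e i j) := by
    rw [Finset.mul_sum]
    exact IsHomogeneous.prod _ _ _ fun j _ => (hp j).pow (D.e i j)
  have h3 := hv.2 (D.B i ^ D.m i - ∏ j, D.pull i j ^ D.e i j) ⟨_, h1.sub h2⟩ (by
    have h4 := hD.eq i
    unfold Pool.Agent.W602.GT.val at h4 ⊢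
    rw [map_sub, map_pow, map_prod, h4, sub_eq_zero]
    exact Finset.prod_congr rfl fun j _ => (map_pow _ _ _).symm)
  have h5 : val v (D.B i ^ D.m i - ∏ j, D.pull i j ^ D.e i j) =
      val v (D.B i) ^ D.m i - ∏ j, val v (D.pull i j) ^ D.e i j := by
    unfold Pool.Agent.W602.GT.val
    rw [map_sub, map_pow, map_prod]
    congr 1
    exact Finset.prod_congr rfl fun j _ => map_pow _ _ _
  rw [h5, sub_eq_zero] at h3
  rw [h3]
  exact Finset.prod_congr rfl fun j _ => by rw [val_pull]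

omit [IsFF ℂ L] in
theorem ge_lk {N : ℕ} (P : Place ℂ L) (b : Fin (N + 1) → ℂ) (y : Fin (N + 1) → L) :
    Ge P (pord P y) (lk b y) := by
  unfold lk
  refine Ge.sum _ _ fun l _ => ?_
  have := (Ge.const (P := P) (b l)).mul (ge_pord P y l)
  rwa [zero_add] at this

omit [IsFF ℂ L] in
theorem ord_prod' {ι : Type} (P : Place ℂ L) (s : Finset ι) (g : ι → L) (e : ι → ℕ)
    (h : ∀ j ∈ s, g j ≠ 0) : P.ord (∏ j ∈ s, g j ^ e j) = ∑ j ∈ s, (e j : ℤ) * P.ord (g j) := by
  classical
  induction s using Finset.induction_on with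
  | empty => rw [Finset.prod_empty, Finset.sum_empty, P.ord_one]
  | insert a s ha ih =>
    rw [Finset.prod_insert ha, Finset.sum_insert ha, P.ord_mul, P.ord_pow,
      ih fun j hj => h j (Finset.mem_insert_of_mem hj)]
    · exact pow_ne_zero _ (h a (Finset.mem_insert_self a s))
    · exact Finset.prod_ne_zero_iff.2 fun j hj => pow_ne_zero _ (h j (Finset.mem_insert_of_mem hj))

omit [IsFF ℂ L] in
/-- the multiplicities -/
theorem mult (hD : D.Good) (hv : OnVar ℂ x v) (i : Fin r)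
    (h0 : ∀ j, lk (D.ℓ i j) (im D v) ≠ 0) (P : Place ℂ L) :
    (∑ j, (D.e i j : ℤ) * (P.ord (lk (D.ℓ i j) (im D v)) - pord P (im D v)) = 0) ∨
      (D.m i : ℤ) ≤ ∑ j, (D.e i j : ℤ) * (P.ord (lk (D.ℓ i j) (im D v)) - pord P (im D v)) := by
  obtain ⟨S, hS⟩ : ∃ S : ℤ, S = ∑ j, (D.e i j : ℤ) *
      (P.ord (lk (D.ℓ i j) (im D v)) - pord P (im D v)) := ⟨_, rfl⟩
  rw [← hS]
  have hS0 : 0 ≤ S := by
    rw [hS]
    refine Finset.sum_nonneg fun j _ => mul_nonneg (by positivity) ?_
    have := (ge_lk P (D.ℓ i j) (im D v)).resolve_left (h0 j)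
    omega
  have h1 := congrArg P.ord (val_eq hD hv i)
  rw [P.ord_pow, ord_prod' P _ _ _ fun j _ => h0 j] at h1
  have h2 : S = ∑ j, (D.e i j : ℤ) * P.ord (lk (D.ℓ i j) (im D v)) -
      (∑ j, (D.e i j : ℤ)) * pord P (im D v) := by
    rw [hS, Finset.sum_mul, ← Finset.sum_sub_distrib]
    exact Finset.sum_congr rfl fun j _ => mul_sub _ _ _
  obtain ⟨w, hw⟩ := hD.dvd i
  have h3 : (∑ j, (D.e i j : ℤ)) = D.m i * w := by exact_mod_cast hw
  have h4 : S = D.m i * (P.ord (val v (D.B i)) - w * pord P (im D v)) := by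
    rw [h2, ← h1, h3]
    ring
  by_cases h5 : P.ord (val v (D.B i)) - w * pord P (im D v) ≤ 0
  · left
    have h6 : S ≤ 0 := by
      rw [h4]
      exact mul_nonpos_of_nonneg_of_nonpos (by positivity) h5
    omega
  · right
    rw [h4]
    push Not at h5
    have h7 : (1 : ℤ) ≤ P.ord (val v (D.B i)) - w * pord P (im D v) := h5
    calc (D.m i : ℤ) = D.m i * 1 := (mul_one _).symm
      _ ≤ _ := mul_le_mul_of_nonneg_left h7 (by positivity)

end pl

/-- the choice of `ρ` -/
theorem exists_rho {n q t m e : ℕ} (hm : 0 < m) (hq : 2 * t < q) (hn : n ≤ t)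
    (small : ∀ k, 1 ≤ k → k ≤ n → k * (2 * t + 1 - k) * e < 2 * m * (q + k - (2 * t + 1))) :
    ∃ ρ : ℝ, 0 ≤ ρ ∧ ρ < m ∧ ∀ p : ℕ, 2 ≤ p → p ≤ n + 1 → ((p : ℝ) - 1) * (2 * t - p + 2) *
      (e : ℝ) ≤ 2 * ρ * (q - (2 * t - p + 2)) := by
  have hq0 : (0 : ℝ) < q := by exact_mod_cast (by omega : 0 < q)
  have hq1 : (1 : ℝ) ≤ q := by exact_mod_cast (by omega : 1 ≤ q)
  have hm1 : (1 : ℝ) ≤ m := by exact_mod_cast hm
  refine ⟨m - 1 / (2 * q), ?_, ?_, fun p hp hp' => ?_⟩
  · have : 1 / (2 * (q : ℝ)) ≤ 1 := by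
      rw [div_le_one (by positivity)]
      linarith
    linarith
  · have : 0 < 1 / (2 * (q : ℝ)) := by positivity
    linarith
  · obtain ⟨k, rfl⟩ : ∃ k, p = k + 1 := ⟨p - 1, by omega⟩
    have h1 := small k (by omega) (by omega)
    obtain ⟨u, hu⟩ : ∃ u : ℕ, u = 2 * t + 1 - k := ⟨_, rfl⟩
    obtain ⟨w, hw⟩ : ∃ w : ℕ, w = q + k - (2 * t + 1) := ⟨_, rfl⟩
    rw [← hu, ← hw] at h1
    have hu' : (u : ℝ) = 2 * t + 1 - k := by
      have : u + k = 2 * t + 1 := by omega
      have h2 : (u : ℝ) + k = 2 * t + 1 := by exact_mod_cast this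
      linarith
    have hw' : (w : ℝ) = q + k - (2 * t + 1) := by
      have : w + (2 * t + 1) = q + k := by omega
      have h2 : (w : ℝ) + (2 * t + 1) = q + k := by exact_mod_cast this
      linarith
    have hwq : (w : ℝ) ≤ q := by exact_mod_cast (by omega : w ≤ q)
    have h2 : (k : ℝ) * u * e + 1 ≤ 2 * m * w := by exact_mod_cast h1
    have h3 : 1 / (2 * (q : ℝ)) * (2 * w) ≤ 1 := by
      rw [div_mul_eq_mul_div, one_mul, div_le_one (by positivity)]
      linarith
    push_cast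
    have e1 : (2 * (t : ℝ) - (k + 1) + 2) = u := by rw [hu']; ring
    have e2 : (q : ℝ) - u = w := by rw [hu', hw']; ring
    rw [e1, e2]
    have e3 : 2 * ((m : ℝ) - 1 / (2 * q)) * w = 2 * m * w - 1 / (2 * q) * (2 * w) := by ring
    rw [e3]
    have e4 : ((k : ℝ) + 1 - 1) * u * e = k * u * e := by ring
    rw [e4]
    linarith

/-- **CAL.** -/
theorem cal (hA : S_AFI) : S_CAL := by
  classical
  intro M K _ _ x n r D hx hD
  have hm : ∀ i, 0 < D.m i := by
    intro i
    have hq : 0 < D.q i := by have := (hD.dim i).2; omega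
    have h1 : 0 < ∑ j, D.e i j := by
      refine Finset.sum_pos (fun j _ => hD.pos i j) ⟨⟨0, hq⟩, Finset.mem_univ _⟩
    obtain ⟨w, hw⟩ := hD.dvd i
    rcases Nat.eq_zero_or_pos (D.m i) with h | h
    · rw [h, zero_mul] at hw
      omega
    · exact h
  choose ρ hρ0 hρm hρ using fun i => exists_rho (hm i) (hD.dim i).2 (hD.dim i).1 (hD.small i)
  choose C hC0 hC using fun i => hA 1 (fun _ => n) (fun _ => D.q i) (fun _ => D.t i)
    (fun _ => D.e i) (D.m i) (fun _ => ρ i) (fun _ => hD.dim i) (fun _ => hD.pos i)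
    (fun _ => ⟨hρ0 i, fun p h1 h2 => by
      have := hρ i p h1 h2
      push_cast at this
      exact this⟩) (by
      rw [Fin.sum_univ_one]
      exact hρm i)
  refine ⟨∑ i, ⌈C i⌉₊, fun L _ _ _ v hv i => ?_⟩
  by_cases h0 : ∃ j, val v (D.pull i j) = 0
  · exact Or.inl h0
  right
  push Not at h0
  have h1 : ∀ j, lk (D.ℓ i j) (im D v) ≠ 0 := fun j => by
    rw [← val_pull]
    exact h0 j
  have h2 := hC i ℂ L (fun _ => D.ℓ i) (fun _ => im D v)
    (fun _ A hA' => rk_zero (hD.mult i A hA')) (fun _ => im_ne hD hv) (fun _ => h1)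
    (fun P => by
      rw [Fin.sum_univ_one]
      exact mult hD hv i h1 P)
  rw [Fin.sum_univ_one] at h2
  rcases h2 with h3 | h3
  · left
    rw [pht_im hD hv] at h3
    have hp := pht_nonneg' (v := v) hv.1
    have hd : (1 : ℤ) ≤ D.d := by exact_mod_cast hD.one_le
    have h4 : pht ℂ v ≤ D.d * pht ℂ v := by nlinarith
    have h5 : (0 : ℝ) ≤ (pht ℂ v : ℝ) := by exact_mod_cast hp
    have h6 : (pht ℂ v : ℝ) ≤ ((D.d * pht ℂ v : ℤ) : ℝ) := by exact_mod_cast h4
    have h7 : (0 : ℝ) ≤ C i * (canDeg ℂ L : ℝ) := h5.trans (h6.trans h3)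
    have h8 : (0 : ℝ) ≤ (canDeg ℂ L : ℝ) := by
      by_contra hcon
      push Not at hcon
      have := mul_neg_of_pos_of_neg (hC0 i) hcon
      linarith
    have h9 : C i ≤ ((∑ i, ⌈C i⌉₊ : ℕ) : ℝ) := by
      refine (Nat.le_ceil (C i)).trans ?_
      exact_mod_cast Finset.single_le_sum (f := fun i => ⌈C i⌉₊) (fun _ _ => Nat.zero_le _)
        (Finset.mem_univ i)
    have h10 : (pht ℂ v : ℝ) ≤ ((∑ i, ⌈C i⌉₊ : ℕ) : ℝ) * (canDeg ℂ L : ℝ) :=
      h6.trans (h3.trans (mul_le_mul_of_nonneg_right h9 h8))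
    exact_mod_cast h10
  · right
    exact h3 0

end

end Pool.Agent.P8H21.NK
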